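import Pool.Agent.Y791.BC.AlgE
import Pool.Agent.Y791.BC.ConjA
import Pool.Agent.Y791.BC.EmbP
import Pool.Agent.Y791.BC.Desc
import Pool.Agent.Y791.BF.FrobRes
import Pool.Agent.Y791.BF.EmbFG
import Pool.Agent.Y791.BF.ObsFG

/-!
# Birational sections whose local points above one prime are algebraic

Let `k` be a field finitely generated over `ℚ` which has a finite extension `k'` isomorphic to a
field of rational functions `K(T)`, and let `X` be a curve over `k` with the function field `F`. Let
`s` be a section of `Gal(Ω/F) → Gal(B/k)`, where `Ω`, `B` are algebraic closures of `F`, `k`, which is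
given by rational points `x_φ` of `X` over the completions `L_v` of the number fields `L` at their
finite places, for all the embeddings `φ` of `k` in `L_v`. (By the theorem of Koenigsmann on
birational sections over `p`-adically closed fields every section is of this form.)

If there is a prime `p` such that the local points `x_φ` at the places above `p` are algebraic over
`φ(k)`, then `s` arises from exactly one `k`-rational point of `X`. (Conversely the local points of a
section which arises from a `k`-rational point are images of this point.)

The proof. Let `x` be a function on `X`. For a place `v` of a number field `L` with an embedding of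
`K` and for a transcendental element `t` of `L_v` the embedding `T ↦ t` of `K(T)` gives a value `x(t)`
of `x` at the local point, and these values have the following properties.
* The Kummer classes of the values of the functions `H(x)`, `H` a polynomial, are given by elements
  of `K(T)`, the same at all places; so `x(t)` is a continuous function of `t`.
* If the values at the places above `p` are algebraic, then by the theorem of Baire `x(t)` is an
  algebraic function of `t` on some open set, and the comparison of the exponents at two conjugate
  points, at one of which the function `1 / P(x)` is infinite, for a suitable polynomial `P`, shows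
  that a function is infinite on an open set, and then on a dense set at all the places above `p`.
* A function which is infinite on dense sets at all the places above `p` is infinite at all places,
  and this gives a valuation ring which is stable under the section, and a rational point.
-/

set_option autoImplicit false

open IsDedekindDomain NumberField Pool.Agent.TH954 Pool.Agent.Y791.BF Pool.Agent.Y791.BC

namespace Pool.Agent.Results.MP_8312c9_nt.AlgebraicPoints

/-- The section `s` is given by a rational point over the extension `L` of `k` along `φ`, with the
algebraic closure of `L` as field of values. -/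
def GeometricAlong {k F Ω B : Type} [Field k] [Field F] [Field Ω] [Field B] [Algebra F Ω]
    [Algebra k Ω] [Algebra k B] (s : GalSection k F Ω B) {L : Type} [Field L] (φ : k →+* L) :
    Prop :=
  letI := φ.toAlgebra
  s.GeometricOver L (AlgebraicClosure L)

/-- The section `s` is given by a rational point over the extension `L` of `k` along `φ`, with the
algebraic closure of `L` as field of values, at which the value of the function `x`, if it is
finite, is algebraic over `k`. -/
def AlgebraicAlong {k F Ω B : Type} [Field k] [Field F] [Field Ω] [Field B] [Algebra F Ω]
    [Algebra k Ω] [Algebra k B] (s : GalSection k F Ω B) {L : Type} [Field L] (φ : k →+* L)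
    (x : F) : Prop :=
  letI := φ.toAlgebra
  ∃ P : Plc k Ω (AlgebraicClosure L),
    (∀ (σ : AlgebraicClosure L ≃ₐ[L] AlgebraicClosure L) (g : B ≃ₐ[k] B),
      (∀ z c, P.val (s.j z) c → P.val (s.j (g z)) (σ c)) →
      ∀ w c, P.val w c → P.val (s.s g w) (σ c)) ∧
    ∀ c, P.val (algebraMap F Ω x) c → IsAlgebraic k c

/-- **Theorem.** Let `k` be a finitely generated field of characteristic zero which has a finite
extension isomorphic to a field of rational functions `K(T)`. A section given by local points, such
that for one prime `p` the local points above `p` are algebraic over `k`, arises from exactly one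
rational point. -/
theorem result (k : Type) [Field k] [CharZero k] [Algebra.EssFiniteType ℚ k]
    (F Ω B : Type) [Field F] [Field Ω] [Field B]
    [Algebra k F] [Algebra F Ω] [Algebra k Ω] [Algebra k B]
    [IsScalarTower k F Ω] [IsAlgClosure F Ω] [IsAlgClosure k B]
    (hF : ∃ t : F, Transcendental k t ∧
      Algebra.IsAlgebraic (IntermediateField.adjoin k {t}) F)
    (k' : IntermediateField k Ω) [FiniteDimensional k k']
    (K : Type) [Field K] [CharZero K] [Algebra.EssFiniteType ℚ K]
    (ψ : RatFunc K →+* Ω) (hψ : ψ.fieldRange = k'.toSubfield)
    (s : GalSection k F Ω B)
    (hloc : ∀ (L : Type) [Field L] [NumberField L] (v : HeightOneSpectrum (𝓞 L))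
      (φ : k →+* v.adicCompletion L), GeometricAlong s φ)
    (p : ℕ) (hp : p.Prime) (x : F) (hx : Transcendental k x)
    (halg : ∀ (L : Type) [Field L] [NumberField L] (v : HeightOneSpectrum (𝓞 L))
      (φ : k →+* v.adicCompletion L), (p : 𝓞 L) ∈ v.asIdeal → AlgebraicAlong s φ x) :
    ∃! O : ValuationSubring F, s.ArisesFrom O := by
  have hE : S_EmbFG := EmbFG.main FrobRes.main
  refine Leg.alg_main hE (ObsFG.main FrobRes.main hE) (Desc.main hE) EmbP.main ConjA.main hp
    inferInstance hF k' K inferInstance ψ hψ x hx s (fun i => ?_)
  by_cases hi : ‖((p : ℕ) : i.Lv)‖ < 1
  · have h1 : (p : 𝓞 i.L) ∈ i.v.asIdeal := by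
      refine (FinitePlace.norm_lt_one_iff_mem i.L i.v (p : 𝓞 i.L)).1 ?_
      have h2 : FinitePlace.embedding i.v (((p : ℕ) : 𝓞 i.L) : i.L) = ((p : ℕ) : i.Lv) := by
        have h3 : (((p : ℕ) : 𝓞 i.L) : i.L) = ((p : ℕ) : i.L) := by push_cast; rfl
        rw [h3, map_natCast]
      rw [h2]
      exact hi
    obtain ⟨P, hP, hPx⟩ := halg i.L i.v i.φ h1
    exact ⟨P, hP, fun _ => hPx⟩
  · obtain ⟨P, hP⟩ := hloc i.L i.v i.φ
    exact ⟨P, hP, fun h => absurd h hi⟩

end Pool.Agent.Results.MP_8312c9_nt.AlgebraicPoints
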