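import Pool.Agent.Y791.BC.SelG
import Pool.Agent.Y791.BC.ConjA
import Pool.Agent.Y791.BC.EmbP
import Pool.Agent.Y791.BC.LegSel
import Pool.Agent.Y791.BC.LegSel4
import Pool.Agent.Y791.BC.SelShift
import Pool.Agent.Y791.BC.Desc2T
import Pool.Agent.Y791.BC.Desc
import Pool.Agent.Y791.BF.FrobRes
import Pool.Agent.Y791.BF.EmbFG
import Pool.Agent.Y791.BF.ObsFG

/-!
# The birational section conjecture for curves over elliptic curves with bounded Selmer groups

Let `k` be a field finitely generated over `ℚ` which has a finite extension `k'` isomorphic to a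
field of rational functions `K(T)`, and let `k ⊆ k₁ ⊆ k'`. Let `E` be an elliptic curve over `k₁` such
that for one prime `l` the Selmer groups of `E` over `k₁` for the multiplications by `l ^ n`, with
respect to all the embeddings of `k₁` in the completions of number fields at the finite places, are
killed by one integer `m ≥ 1` (that is, `E(k₁)` is finite and the `l`-primary part of the
Tate-Shafarevich group of `E` is bounded). Then the birational section conjecture holds for every
curve `X` over `k` which has, over `k₁`, a nonconstant map to `E`: every section of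
`Gal(Ω/F) → Gal(B/k)`, where `F` is the function field of `X` and `Ω`, `B` are algebraic closures of
`F`, `k`, arises from exactly one `k`-rational point of `X`. Here the section is assumed to be given
by rational points over the completions `L_v` of the number fields `L` at their finite places, for
all the embeddings of `k` in `L_v`; by the theorem of Koenigsmann on birational sections over
`p`-adically closed fields this holds for every section.

The condition on the Selmer groups is verified, with `l = 2`, for the Legendre curve
`y ^ 2 = x (x - 1) (x - T)` and for the curve `y ^ 2 = x (x + 1) (x + T ^ 2)` over `K(T)`, for every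
finitely generated field `K` of characteristic zero.

The proof. Let `D` be the point of the section on `E`, a point over the fixed field of the section.
* The cocycle of the division of `D` by `l ^ n` lies in the Selmer group, so that `m D` is divisible
  by all powers of `l` in the points over the fixed field.
* Over a completion `L_v` at a place above `l`, the value of `D` is a torsion point, so that it is
  algebraic over the field `k₁`.
* Rigidity: a section over a finite extension of `K(T)` whose local points above one prime are
  algebraic arises from a rational point.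
-/

set_option autoImplicit false

open IsDedekindDomain NumberField Pool.Agent.TH942 Pool.Agent.TH954 Pool.Agent.Y791.BF
  Pool.Agent.Y791.BC

namespace Pool.Agent.Results.MP_8312c9_nt.BoundedSelmer

/-- The section `s` is given by a rational point over the extension `L` of `k` along `φ`, with the
algebraic closure of `L` as field of values. -/
def GeometricAlong {k F Ω B : Type} [Field k] [Field F] [Field Ω] [Field B] [Algebra F Ω]
    [Algebra k Ω] [Algebra k B] (s : GalSection k F Ω B) {L : Type} [Field L] (φ : k →+* L) :
    Prop :=
  letI := φ.toAlgebra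
  s.GeometricOver L (AlgebraicClosure L)

/-- The class of the cocycle `ξ` with values in the points of `y ^ 2 = x ^ 3 + a x + b` over the
algebraic closure of `R` becomes trivial over the extension `L` of `R` along `φ`. -/
def TrivialAlong {R : Type} [Field R] (a b : R)
    (ξ : (AlgebraicClosure R ≃ₐ[R] AlgebraicClosure R) → AlgPt (sw a b) R) {L : Type} [Field L]
    (φ : R →+* L) : Prop :=
  letI := φ.toAlgebra
  TrivialOver (sw a b) ξ L

open scoped Classical in
/-- The Selmer groups of the curve `y ^ 2 = x ^ 3 + a x + b` over `R` for the multiplications by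
powers of `l`, with respect to all the embeddings of `R` in completions of number fields at finite
places, are killed by `m`: a continuous cocycle of the absolute Galois group of `R` with values in
the points of order dividing `l ^ n`, the class of which in the points of the curve becomes trivial
over all these completions, is, after the multiplication by `m`, the coboundary of a point of order
dividing `l ^ n`. -/
def SelmerKilled (R : Type) [Field R] (l : ℕ) (a b : R) (m : ℕ) : Prop :=
  ∀ (n : ℕ) (ξ : (AlgebraicClosure R ≃ₐ[R] AlgebraicClosure R) → AlgPt (sw a b) R),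
    IsCocycle (sw a b) ξ → (∀ σ, (l ^ n) • ξ σ = 0) →
    (∀ (L : Type) [Field L] [NumberField L] (v : HeightOneSpectrum (𝓞 L))
      (φ : R →+* v.adicCompletion L), TrivialAlong a b ξ φ) →
    ∃ T : AlgPt (sw a b) R, (l ^ n) • T = 0 ∧ ∀ σ, m • ξ σ = act (sw a b) σ T - T

lemma SelmerKilled.toL {R : Type} [Field R] {l : ℕ} {a b : R} {m : ℕ}
    (h : SelmerKilled R l a b m) : SelKilledL R l a b m := by
  intro n ξ h1 h2 h3
  exact h n ξ h1 h2 (fun L _ _ v φ => h3 ⟨L, v, φ⟩)

lemma SelmerKilled.of {R : Type} [Field R] {a b : R} {m : ℕ}
    (h : SelKilled R a b m) : SelmerKilled R 2 a b m := by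
  intro n ξ h1 h2 h3
  exact h n ξ h1 h2 (fun i => h3 i.L i.v i.φ)

/-- the condition on the Selmer groups from a condition on the two-Selmer group -/
lemma killed_of {F : Type} [Field F] [CharZero F] {e₁ e₂ e₃ f₁ f₂ f₃ : F} {r : ℕ}
    (hsel : SelTor F r f₁ f₂ f₃) (h12 : f₁ ≠ f₂) (h13 : f₁ ≠ f₃) (h23 : f₂ ≠ f₃)
    (hs : e₁ + e₂ + e₃ = 0) (h2 : e₂ - e₁ = f₂ - f₁) (h3 : e₃ - e₁ = f₃ - f₁) :
    SelmerKilled F 2 (e₁ * e₂ + e₁ * e₃ + e₂ * e₃) (-(e₁ * e₂ * e₃)) (2 ^ r) := by
  have key := SelShift.shift F r f₁ f₂ f₃ (f₁ - e₁) h12 h13 h23 hsel
  have e1 : f₁ - (f₁ - e₁) = e₁ := by ring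
  have e2 : f₂ - (f₁ - e₁) = e₂ := by linear_combination -h2
  have e3 : f₃ - (f₁ - e₁) = e₃ := by linear_combination -h3
  rw [e1, e2, e3] at key
  refine SelmerKilled.of (Leg.link Desc2T.main ?_ ?_ ?_ hs key)
  · intro h
    apply h12
    linear_combination h2 + h
  · intro h
    apply h13
    linear_combination h3 + h
  · intro h
    apply h23
    linear_combination h + h3 - h2

/-- **Theorem.** The birational section conjecture over a finitely generated field `k` for the
curves which have, over an extension `k₁` of `k` contained in a finite extension `k' = K(T)`, a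
nonconstant map to an elliptic curve `E` over `k₁`, the Selmer groups of which for the powers of a
prime are bounded; the condition on the Selmer groups holds for the Legendre curve and for the curve
`y ^ 2 = x (x + 1) (x + T ^ 2)` over `K(T)`. -/
theorem result :
    (∀ (k : Type) [Field k] [CharZero k] [Algebra.EssFiniteType ℚ k]
      (F Ω B : Type) [Field F] [Field Ω] [Field B]
      [Algebra k F] [Algebra F Ω] [Algebra k Ω] [Algebra k B]
      [IsScalarTower k F Ω] [IsAlgClosure F Ω] [IsAlgClosure k B],
      (∃ t : F, Transcendental k t ∧ Algebra.IsAlgebraic (IntermediateField.adjoin k {t}) F) →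
      ∀ (k₁ k' : IntermediateField k Ω) [FiniteDimensional k k'], k₁ ≤ k' →
      ∀ (R : Type) [Field R] (ι : R →+* Ω), ι.fieldRange = k₁.toSubfield →
      ∀ (K : Type) [Field K] [CharZero K] [Algebra.EssFiniteType ℚ K]
        (ψ : RatFunc K →+* Ω), ψ.fieldRange = k'.toSubfield →
      ∀ a b : R, 4 * a ^ 3 + 27 * b ^ 2 ≠ 0 →
      ∀ l m : ℕ, l.Prime → 1 ≤ m → SelmerKilled R l a b m →
      ∀ x y : Ω, x ∈ IntermediateField.adjoin F (k₁ : Set Ω) →
        y ∈ IntermediateField.adjoin F (k₁ : Set Ω) → Transcendental k x →
        y ^ 2 = x ^ 3 + ι a * x + ι b →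
      ∀ s : GalSection k F Ω B,
        (∀ (L : Type) [Field L] [NumberField L] (v : HeightOneSpectrum (𝓞 L))
          (φ : k →+* v.adicCompletion L), GeometricAlong s φ) →
        ∃! O : ValuationSubring F, s.ArisesFrom O) ∧
    (∀ (K : Type) [Field K] [CharZero K] [Algebra.EssFiniteType ℚ K] (e₁ e₂ e₃ : RatFunc K),
      e₁ + e₂ + e₃ = 0 →
      (e₂ - e₁ = 1 → e₃ - e₁ = RatFunc.X →
        SelmerKilled (RatFunc K) 2 (e₁ * e₂ + e₁ * e₃ + e₂ * e₃) (-(e₁ * e₂ * e₃)) 2) ∧
      (e₂ - e₁ = -1 → e₃ - e₁ = -RatFunc.X ^ 2 →
        SelmerKilled (RatFunc K) 2 (e₁ * e₂ + e₁ * e₃ + e₂ * e₃) (-(e₁ * e₂ * e₃)) 4)) := by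
  have hE : S_EmbFG := EmbFG.main FrobRes.main
  constructor
  · intro k _ _ hk F Ω B _ _ _ _ _ _ _ _ _ _ hF k₁ k' _ h₁ R _ ι hι K _ _ hK ψ hψ a b hD l m hl hm
      hsel x y hx hy hxt hxy s hloc
    exact Leg.sel_main hE (ObsFG.main FrobRes.main hE) (Desc.main hE) EmbP.main ConjA.main hk hF
      k₁ k' h₁ ι hι K hK ψ hψ hD hm hl hsel.toL x y hx hy hxt hxy s (fun i => hloc i.L i.v i.φ)
  · intro K _ _ hK e₁ e₂ e₃ hs
    have hch : CharZero (RatFunc K) :=
      charZero_of_injective_algebraMap (algebraMap K (RatFunc K)).injective
    have hX : (RatFunc.X : RatFunc K) ≠ 0 := RatFunc.X_ne_zero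
    have hXC : ∀ c : K, (RatFunc.X : RatFunc K) ≠ RatFunc.C c := by
      intro c h
      rw [← RatFunc.algebraMap_X, ← RatFunc.algebraMap_C] at h
      exact Polynomial.X_ne_C c (RatFunc.algebraMap_injective K h)
    refine ⟨fun h2 h3 => ?_, fun h2 h3 => ?_⟩
    · have key := killed_of (LegSel.main K hK) zero_ne_one hX.symm (fun h => hXC 1 (by
        rw [map_one]; exact h.symm)) hs (by rw [h2]; ring) (by rw [h3]; ring)
      exact key
    · have key := killed_of (LegSel4.main K hK) (by norm_num) (by
        intro h
        apply hX
        have h4 : (RatFunc.X : RatFunc K) ^ 2 = 0 := by linear_combination h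
        exact pow_eq_zero_iff two_ne_zero |>.1 h4) (by
        intro h
        have h4 : ((RatFunc.X : RatFunc K) - 1) * (RatFunc.X + 1) = 0 := by
          linear_combination h
        rcases mul_eq_zero.1 h4 with h5 | h5
        · apply hXC 1
          rw [map_one]
          linear_combination h5
        · apply hXC (-1)
          rw [map_neg, map_one]
          linear_combination h5) hs (by rw [h2]; ring) (by rw [h3]; ring)
      exact key

end Pool.Agent.Results.MP_8312c9_nt.BoundedSelmer
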