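import Pool.Agent.Y791.BC.Semi2
import Pool.Agent.Y791.BC.Near
import Pool.Agent.Y791.BC.Desc
import Pool.Agent.Y791.BF.FrobRes
import Pool.Agent.Y791.BF.EmbFG
import Pool.Agent.Y791.BF.ObsFG
import Pool.Agent.Y791.BF.Level
import Pool.Agent.Y46.BF.Inter2
import Pool.Agent.Y791.BS.Unr

/-!
# The birational section conjecture for some non-isotrivial curves over fields of rational functions

Let `k` be a field finitely generated over `ℚ` and `k' = K(S)` a finite extension of `k` which is a
field of rational functions. Consider the cyclic covering

  `y ^ l = ∏ (x - t) ^ m t * H(x, S)`  (`t` in the finite set `R` of elements of `K`)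

of the line over `K(S)`, where `l` is a prime number and `H` is a polynomial in `x` with
coefficients in `K[S]`. It is ramified at the constant points `t` in `R` and at infinity (`l` does
not divide the degree of the right hand side), and at moving points, the zeros of `H`. Suppose that
* there are enough constant branch points: a cyclic covering of degree `l` of the line with
  `|R| + 1` branch points has genus at least one (so `|R| ≥ 3` if `l = 2` and `|R| ≥ 2` if not),
* the moving branch points do not meet the constant ones outside a small set of values of `S`:
  `H(t, S)` for `t` in `R` and the leading coefficient of `H` have no zeros outside `Z`, where a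
  cyclic covering of degree `l` of the line with `|Z| + 1` branch points has genus zero (so
  `|Z| ≤ 2` if `l = 2` and `|Z| ≤ 1` if not).
Then the birational section conjecture holds for every curve `X` over `k` which has a nonconstant
map to this covering over `k'`: every section of `Gal(Ω/F) → Gal(B/k)`, where `F` is the function
field of `X` and `Ω`, `B` are algebraic closures of `F`, `k`, arises from exactly one `k`-rational
point of `X`. Here the section is assumed to be given by rational points over the completions `L_v`
of the number fields `L` at their finite places, for all the embeddings of `k` in `L_v`; by the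
theorem of Koenigsmann on birational sections over `p`-adically closed fields this holds for every
section.

Examples with `k = K(S)`: the curves `y ^ 2 = x (x ^ 2 - 1) (x ^ 2 - S)` and
`y ^ 2 = f(x) (1 + f(x) A(x, S))`, where `f` has degree three and distinct roots in `K` and `A` is
any polynomial whose degree in `x` is odd and whose leading coefficient is constant. In general
these curves are not isotrivial.
-/

set_option autoImplicit false

open Polynomial IsDedekindDomain NumberField Pool.Agent.TH954 Pool.Agent.Y791.BF Pool.Agent.Y791.BC

namespace Pool.Agent.Results.MP_8312c9_nt.ConstantBranchPoints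

/-- The section `s` is given by a rational point over the extension `L` of `k` along `φ`, with the
algebraic closure of `L` as field of values. -/
def GeometricAlong {k F Ω B : Type} [Field k] [Field F] [Field Ω] [Field B] [Algebra F Ω]
    [Algebra k Ω] [Algebra k B] (s : GalSection k F Ω B) {L : Type} [Field L] (φ : k →+* L) :
    Prop :=
  letI := φ.toAlgebra
  s.GeometricOver L (AlgebraicClosure L)

/-- The value `H(x, S)` of a polynomial with coefficients in `K[S]`. -/
noncomputable def val {K Ω : Type} [Field K] [Field Ω] [Algebra K Ω] (H : K[X][X]) (x S : Ω) : Ω :=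
  eval₂ (aeval S : K[X] →ₐ[K] Ω).toRingHom x H

/-- **Theorem.** The birational section conjecture over a finitely generated field `k` for the curves
which have, over a finite extension `k' = K(S)` of `k`, a nonconstant map to a cyclic covering
`y ^ l = ∏ (x - t) ^ m t * H(x, S)` of the line with sufficiently many constant branch points, which
the other branch points do not meet outside a small set `Z` of values of `S`. -/
theorem result (k : Type) [Field k] [CharZero k] [Algebra.EssFiniteType ℚ k]
    (F Ω B : Type) [Field F] [Field Ω] [Field B]
    [Algebra k F] [Algebra F Ω] [Algebra k Ω] [Algebra k B]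
    [IsScalarTower k F Ω] [IsAlgClosure F Ω] [IsAlgClosure k B]
    (hF : ∃ t : F, Transcendental k t ∧
      Algebra.IsAlgebraic (IntermediateField.adjoin k {t}) F)
    (k' : IntermediateField k Ω) [FiniteDimensional k k']
    (K : Type) [Field K] [CharZero K] [Algebra.EssFiniteType ℚ K] [Algebra K Ω]
    (S : Ω) (hS : Transcendental K S)
    (hk' : k'.toSubfield = Subfield.closure (Set.range (algebraMap K Ω) ∪ {S}))
    (l : ℕ) (hl : l.Prime) (R : Finset K) (m : K → ℕ) (H : K[X][X])
    (hm : ∀ t ∈ R, ¬ l ∣ m t) (hdeg : ¬ l ∣ ∑ t ∈ R, m t + H.natDegree)
    (hR : 2 * l ≤ (l - 1) * (R.card + 1))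
    (Z : Finset K) (hZc : (l - 1) * (Z.card + 1) < 2 * l)
    (hZ : ∀ ρ : AlgebraicClosure K, (∀ a ∈ Z, ρ ≠ algebraMap K (AlgebraicClosure K) a) →
      aeval ρ H.leadingCoeff ≠ 0 ∧ ∀ t ∈ R, aeval ρ (H.eval (C t)) ≠ 0)
    (x y : Ω) (hx : x ∈ IntermediateField.adjoin F (k' : Set Ω))
    (hy : y ∈ IntermediateField.adjoin F (k' : Set Ω)) (hxt : Transcendental k x)
    (hxy : y ^ l = (∏ t ∈ R, (x - algebraMap K Ω t) ^ m t) * val H x S)
    (s : GalSection k F Ω B)
    (hloc : ∀ (L : Type) [Field L] [NumberField L] (v : HeightOneSpectrum (𝓞 L))
      (φ : k →+* v.adicCompletion L), GeometricAlong s φ) :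
    ∃! O : ValuationSubring F, s.ArisesFrom O := by
  have hE : S_EmbFG := EmbFG.main FrobRes.main
  exact semi_main Near.main hE Pool.Agent.Y791.BS.Unr.main Pool.Agent.Y46.BF4.main
    (ObsFG.main FrobRes.main hE) Level.ext (Desc.main hE) inferInstance hF k' K inferInstance
    S hS hk' l hl R m H Z hm hdeg hR hZc (fun ρ hρ => hZ ρ (fun a ha h => hρ a ha h.symm))
    x y hx hy hxt hxy s (fun i => hloc i.L i.v i.φ)

end Pool.Agent.Results.MP_8312c9_nt.ConstantBranchPoints
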