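import Pool.Agent.Y791.BC.Sol
import Pool.Agent.Y791.BC.Solv
import Pool.Agent.Y791.BC.Genus
import Pool.Agent.Y791.BC.Near
import Pool.Agent.Y791.BC.Desc
import Pool.Agent.Y791.BF.FrobRes
import Pool.Agent.Y791.BF.EmbFG
import Pool.Agent.Y791.BF.ObsFG
import Pool.Agent.Y791.BF.Level
import Pool.Agent.Y46.BF.Inter2
import Pool.Agent.Y791.BS.Unr

/-!
# The birational section conjecture for curves over constant solvable coverings of the line

Let `k` be a field finitely generated over `ℚ` and `X` a curve over `k` with function field `F`.
Let `k'` be a finite extension of `k` which is a field `K(S)` of rational functions, and let `C` be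
the algebraic closure of `K`.  Let `Y` be a curve over `C`, of genus at least one, which is a Galois
covering of the line with solvable group (for instance an elliptic, hyperelliptic or superelliptic
curve, or a Fermat curve).  Suppose that `X` has, over `k' C`, a nonconstant map to `Y`.  Then every
section of `Gal(Ω/F) → Gal(B/k)`, where `Ω` and `B` are algebraic closures of `F` and `k`, arises
from exactly one `k`-rational point of `X`.  Here `s` is assumed to be given by rational points over
the completions `L_v` of the number fields `L` at their finite places, for all the embeddings of `k`
in `L_v`; by the theorem of Koenigsmann on birational sections over `p`-adically closed fields this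
holds for every section.

For instance `k = K(T)` for any field `K` finitely generated over `ℚ`, and `X` any curve with a
nonconstant map to a hyperelliptic curve defined over the algebraic closure of `K`.
-/

set_option autoImplicit false

open IsDedekindDomain NumberField Pool.Agent.TH954 Pool.Agent.Y791.BF Pool.Agent.Y791.BC

namespace Pool.Agent.Results.MP_8312c9_nt.ConstantCurves

/-- The section `s` is given by a rational point over the extension `L` of `k` along `φ`, with the
algebraic closure of `L` as field of values. -/
def GeometricAlong {k F Ω B : Type} [Field k] [Field F] [Field Ω] [Field B] [Algebra F Ω]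
    [Algebra k Ω] [Algebra k B] (s : GalSection k F Ω B) {L : Type} [Field L] (φ : k →+* L) :
    Prop :=
  letI := φ.toAlgebra
  s.GeometricOver L (AlgebraicClosure L)

/-- The extension `E` of the field `C` is the function field of a solvable covering of the line which
is not a line, with `x` as coordinate: `E` is a finite Galois extension, with solvable group, of
`C(x)`, and is not of the form `C(w)`. For `C` algebraically closed and `x` transcendental over `C`
the last condition means that the genus of `E` is at least one. -/
structure SolvableCovering (C E : Type) [Field C] [Field E] [Algebra C E] (x : E) : Prop where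
  finite : FiniteDimensional (IntermediateField.adjoin C {x}) E
  galois : IsGalois (IntermediateField.adjoin C {x}) E
  solvable : Group.IsSolvable (E ≃ₐ[IntermediateField.adjoin C {x}] E)
  notRational : ∀ w : E, IntermediateField.adjoin C {w} ≠ ⊤

/-- **Theorem.** The birational section conjecture over a finitely generated field `k` for the curves
with function field `F` such that for a finite extension `k' = K(S)` of `k` and the algebraic closure
`C` of `K`, the compositum `F k' C` contains the function field `E` of a solvable covering of the
line over `C` of genus at least one, with a coordinate `x` which is not algebraic over `k`. -/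
theorem result (k : Type) [Field k] [CharZero k] [Algebra.EssFiniteType ℚ k]
    (F Ω B : Type) [Field F] [Field Ω] [Field B]
    [Algebra k F] [Algebra F Ω] [Algebra k Ω] [Algebra k B]
    [IsScalarTower k F Ω] [IsAlgClosure F Ω] [IsAlgClosure k B]
    (hF : ∃ t : F, Transcendental k t ∧
      Algebra.IsAlgebraic (IntermediateField.adjoin k {t}) F)
    (k' : IntermediateField k Ω) [FiniteDimensional k k']
    (K : Type) [Field K] [CharZero K] [Algebra.EssFiniteType ℚ K] [Algebra K Ω]
    (S : Ω) (hS : Transcendental K S)
    (hk' : k'.toSubfield = Subfield.closure (Set.range (algebraMap K Ω) ∪ {S}))
    (E : IntermediateField (algebraicClosure K Ω) Ω)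
    (hE : ∀ z ∈ E, z ∈ IntermediateField.adjoin F
      ((k' : Set Ω) ∪ (algebraicClosure K Ω : Set Ω)))
    (x : E) (hx : Transcendental k (x : Ω)) (hEx : SolvableCovering (algebraicClosure K Ω) E x)
    (s : GalSection k F Ω B)
    (hloc : ∀ (L : Type) [Field L] [NumberField L] (v : HeightOneSpectrum (𝓞 L))
      (φ : k →+* v.adicCompletion L), GeometricAlong s φ) :
    ∃! O : ValuationSubring F, s.ArisesFrom O := by
  have hEmb : S_EmbFG := EmbFG.main FrobRes.main
  exact solv_main Solv.main Genus.main Near.main hEmb Pool.Agent.Y791.BS.Unr.main
    Pool.Agent.Y46.BF4.main (ObsFG.main FrobRes.main hEmb) Level.ext (Desc.main hEmb)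
    inferInstance hF k' K inferInstance S hS hk' E hE x hx hEx.finite hEx.galois hEx.solvable
    hEx.notRational s (fun i => hloc i.L i.v i.φ)

end Pool.Agent.Results.MP_8312c9_nt.ConstantCurves
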